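import Pool.Agent.KS6_51.INV.Core

set_option autoImplicit false

/-! # Arrays: sets closed under the elementary operations with slices -/

namespace Pool.Agent.KS6_51.INV

open Finset Filter Matrix
open Pool.Agent.W147.PS (ff)
open Pool.Agent.Q20.RG

/-- add `s` times the slice `i j = b` to the slice `i j = a` of an array -/
def slice {p k : ℕ} {n : Fin k → ℕ} (j : Fin k) (a b : Fin (n j)) (s : ZMod p)
    (X : (∀ j, Fin (n j)) → ZMod p) : (∀ j, Fin (n j)) → ZMod p :=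
  fun i => if i j = a then X i + s * X (Function.update i j b) else X i

section

variable {p k : ℕ} [Fact p.Prime] {n : Fin k → ℕ}

lemma slice_dot (j : Fin k) {a b : Fin (n j)} (hab : a ≠ b) (s : ZMod p) (g X : (∀ j, Fin (n j)) → ZMod p) :
    g ⬝ᵥ slice j a b s X = slice j b a s g ⬝ᵥ X := by
  classical
  unfold slice dotProduct
  have h1 : ∀ i : (∀ j, Fin (n j)), g i * (if i j = a then X i + s * X (Function.update i j b) else X i) =
      g i * X i + if i j = a then s * (g i * X (Function.update i j b)) else 0 := by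
    intro i
    split_ifs <;> ring
  have h2 : ∀ i : (∀ j, Fin (n j)), (if i j = b then g i + s * g (Function.update i j a) else g i) * X i =
      g i * X i + if i j = b then s * (g (Function.update i j a) * X i) else 0 := by
    intro i
    split_ifs <;> ring
  rw [sum_congr rfl (fun i _ => h1 i), sum_congr rfl (fun i _ => h2 i), sum_add_distrib, sum_add_distrib]
  congr 1
  rw [← sum_filter, ← sum_filter]
  refine sum_bij (fun i _ => Function.update i j b) ?_ ?_ ?_ ?_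
  · intro i _
    simp
  · intro i1 h1 i2 h2 h12
    rw [mem_filter] at h1 h2
    have h3 : Function.update (Function.update i1 j b) j a = Function.update (Function.update i2 j b) j a := by
      rw [h12]
    rw [Function.update_idem, Function.update_idem] at h3
    have h4 : Function.update i1 j a = i1 := by rw [← h1.2, Function.update_eq_self]
    have h5 : Function.update i2 j a = i2 := by rw [← h2.2, Function.update_eq_self]
    rw [h4, h5] at h3
    exact h3
  · intro i hi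
    rw [mem_filter] at hi
    refine ⟨Function.update i j a, by simp, ?_⟩
    rw [Function.update_idem, ← hi.2, Function.update_eq_self]
  · intro i hi
    rw [mem_filter] at hi
    rw [Function.update_idem, ← hi.2, Function.update_eq_self]

lemma slice_inj (j : Fin k) {a b : Fin (n j)} (hab : a ≠ b) (s : ZMod p) :
    Function.Injective (slice (p := p) j a b s) := by
  intro X Y h
  funext i
  have h1 : ∀ i : (∀ j, Fin (n j)), i j ≠ a → X i = Y i := by
    intro i hi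
    have := congrFun h i
    simpa [slice, hi] using this
  by_cases hi : i j = a
  · have h2 := congrFun h i
    simp only [slice, hi, if_true] at h2
    rw [h1 (Function.update i j b) (by simpa using hab.symm)] at h2
    exact add_right_cancel h2
  · exact h1 i hi

variable (D : Finset (Fin k))

/-- closed under the elementary operations in the directions of `D` -/
def Closed (D : Finset (Fin k)) (Ω : Finset ((∀ j, Fin (n j)) → ZMod p)) : Prop :=
  ∀ j ∈ D, ∀ a b : Fin (n j), a ≠ b → ∀ s : ZMod p, ∀ X ∈ Ω, slice j a b s X ∈ Ω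

lemma norm_slice {D : Finset (Fin k)} {Ω : Finset ((∀ j, Fin (n j)) → ZMod p)} (hΩ : Closed D Ω)
    {j : Fin k} (hj : j ∈ D) {a b : Fin (n j)} (hab : a ≠ b) (s : ZMod p) (g : (∀ j, Fin (n j)) → ZMod p) :
    ‖S Ω (slice j a b s g)‖ = ‖S Ω g‖ := by
  symm
  refine inv_norm Ω (slice j b a s) (fun X hX => hΩ j hj b a hab.symm s X hX)
    ((slice_inj j hab.symm s).injOn) g (slice j a b s g) 0 fun v => ?_
  rw [slice_dot j hab.symm, add_zero]

/-- all values at the axes through a point can be reached -/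
lemma reach {D : Finset (Fin k)} {Ω : Finset ((∀ j, Fin (n j)) → ZMod p)} (hΩ : Closed D Ω)
    (h : (∀ j, Fin (n j)) → ZMod p) (c : ∀ j, Fin (n j)) (w0 : ZMod p) (hw0 : w0 ≠ 0)
    (hc : ∃ g, ‖S Ω g‖ = ‖S Ω h‖ ∧ g c = w0) (w : (Σ j : Fin k, Fin (n j)) → ZMod p)
    (Q : Finset (Σ j : Fin k, Fin (n j))) (hQ : ∀ q ∈ Q, q.1 ∈ D ∧ q.2 ≠ c q.1) :
    ∃ g, ‖S Ω g‖ = ‖S Ω h‖ ∧ g c = w0 ∧ ∀ q ∈ Q, g (Function.update c q.1 q.2) = w q := by
  classical
  induction Q using Finset.induction_on with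
  | empty =>
    obtain ⟨g, h1, h2⟩ := hc
    exact ⟨g, h1, h2, fun q hq => absurd hq (notMem_empty q)⟩
  | insert q Q hq ih =>
    obtain ⟨g, h1, h2, h3⟩ := ih (fun q hq => hQ q (mem_insert_of_mem hq))
    obtain ⟨hqD, hqc⟩ := hQ q (mem_insert_self q Q)
    set s : ZMod p := (w q - g (Function.update c q.1 q.2)) / w0 with hs
    refine ⟨slice q.1 q.2 (c q.1) s g, ?_, ?_, ?_⟩
    · rw [norm_slice hΩ hqD hqc, h1]
    · rw [slice, if_neg (Ne.symm hqc), h2]
    · intro q' hq'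
      rcases mem_insert.1 hq' with rfl | hq''
      · rw [slice, if_pos (by simp), Function.update_idem, Function.update_eq_self, h2, hs]
        field_simp
        ring
      · rw [slice, if_neg, h3 q' hq'']
        intro h4
        by_cases h5 : q.1 = q'.1
        · obtain ⟨j, x⟩ := q
          obtain ⟨j', x'⟩ := q'
          simp only at h5
          subst h5
          simp only [Function.update_self] at h4
          subst h4
          exact hq hq''
        · rw [Function.update_of_ne h5] at h4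
          exact hqc h4.symm

/-- the value at a point can be changed -/
lemma centre {D : Finset (Fin k)} {Ω : Finset ((∀ j, Fin (n j)) → ZMod p)} (hΩ : Closed D Ω)
    (h : (∀ j, Fin (n j)) → ZMod p) (c : ∀ j, Fin (n j)) (hc : h c ≠ 0) (j : Fin k) (hj : j ∈ D)
    (hn : 2 ≤ n j) (w0 : ZMod p) : ∃ g, ‖S Ω g‖ = ‖S Ω h‖ ∧ g c = w0 := by
  classical
  have : Nontrivial (Fin (n j)) := Fin.nontrivial_iff_two_le.2 hn
  obtain ⟨x, hx⟩ := exists_ne (c j)
  obtain ⟨g, h1, h2, h3⟩ := reach hΩ h c (h c) hc ⟨h, rfl, rfl⟩ (fun _ => 1) {⟨j, x⟩} (by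
    intro q hq
    rw [mem_singleton] at hq
    subst hq
    exact ⟨hj, hx⟩)
  have h4 := h3 ⟨j, x⟩ (mem_singleton_self _)
  simp only at h4
  refine ⟨slice j (c j) x (w0 - h c) g, ?_, ?_⟩
  · rw [norm_slice hΩ hj hx.symm, h1]
  · rw [slice, if_pos rfl, h4, h2]
    ring

/-- the number of the functionals with the same modulus of the exponential sum -/
lemma many {D : Finset (Fin k)} {Ω : Finset ((∀ j, Fin (n j)) → ZMod p)} (hΩ : Closed D Ω)
    (h : (∀ j, Fin (n j)) → ZMod p) (hh : h ≠ 0) (hD : ∃ j ∈ D, 2 ≤ n j) :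
    ∃ H : Finset ((∀ j, Fin (n j)) → ZMod p), (∀ g ∈ H, ‖S Ω g‖ = ‖S Ω h‖) ∧
      (p - 1) * p ^ (∑ j ∈ D, (n j - 1)) ≤ H.card := by
  classical
  obtain ⟨c, hc⟩ := Function.ne_iff.1 hh
  obtain ⟨j0, hj0, hn0⟩ := hD
  set Q : Finset (Σ j : Fin k, Fin (n j)) := D.sigma (fun j => univ.erase (c j)) with hQ
  have hQm : ∀ q ∈ Q, q.1 ∈ D ∧ q.2 ≠ c q.1 := by
    intro q hq
    rw [hQ, mem_sigma] at hq
    exact ⟨hq.1, ne_of_mem_erase hq.2⟩
  have key : ∀ z : {x : ZMod p // x ≠ 0} × (Q → ZMod p), ∃ g : (∀ j, Fin (n j)) → ZMod p,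
      ‖S Ω g‖ = ‖S Ω h‖ ∧ g c = z.1 ∧ ∀ q : Q, g (Function.update c q.1.1 q.1.2) = z.2 q := by
    intro z
    obtain ⟨g, h1, h2, h3⟩ := reach hΩ h c z.1 z.1.2 (centre hΩ h c hc j0 hj0 hn0 z.1)
      (fun q => if hq : q ∈ Q then z.2 ⟨q, hq⟩ else 0) Q hQm
    refine ⟨g, h1, h2, fun q => ?_⟩
    rw [h3 q.1 q.2, dif_pos q.2]
  choose G hG1 hG2 hG3 using key
  have hinj : Function.Injective G := by
    intro z z' hzz
    refine Prod.ext ?_ ?_
    · apply Subtype.ext
      rw [← hG2 z, ← hG2 z', hzz]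
    · funext q
      rw [← hG3 z q, ← hG3 z' q, hzz]
  refine ⟨univ.image G, ?_, ?_⟩
  · intro g hg
    obtain ⟨z, -, rfl⟩ := mem_image.1 hg
    exact hG1 z
  · rw [card_image_of_injective _ hinj, card_univ, Fintype.card_prod, Fintype.card_fun, Fintype.card_coe,
      ZMod.card]
    have h1 : Fintype.card {x : ZMod p // x ≠ 0} = p - 1 := by
      rw [Fintype.card_subtype_compl, ZMod.card]
      simp
    rw [h1]
    apply le_of_eq
    congr 2
    rw [hQ, card_sigma]
    refine sum_congr rfl fun j _ => ?_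
    rw [card_erase_of_mem (mem_univ _), card_univ, Fintype.card_fin]

end

/-- **arrays** -/
theorem arrays (k : ℕ) (n : Fin k → ℕ) (hn : ∀ j, 1 ≤ n j) (D : Finset (Fin k)) (hD : ∃ j ∈ D, 2 ≤ n j)
    (ε : ℝ) (hε : 0 < ε) (hε1 : ε ≤ 1) :
    ∃ κ : ℝ, 0 < κ ∧ ∃ p₀ : ℕ, ∀ p : ℕ, p₀ ≤ p → ∀ [Fact p.Prime],
    ∀ (Ω : Finset ((∀ j, Fin (n j)) → ZMod p)), Closed D Ω →
    ∀ A N : (∀ j, Fin (n j)) → ℕ, (∀ j, A j + N j ≤ p) → (∀ j, (p : ℝ) ^ ε ≤ N j) →
      (p : ℝ) ^ (3 * (∏ j, (n j : ℝ)) - ∑ j ∈ D, ((n j : ℝ) - 1) - 1 + ε) ≤ (∏ j, (N j : ℝ)) ^ 2 * Ω.card →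
      ∃ G : Finset ((∀ j, Fin (n j)) → ℕ),
        (∏ j, (N j : ℝ)) * Ω.card * (p : ℝ) ^ (-(∏ j, (n j : ℝ)) - ε) ≤ G.card ∧
        ∀ z ∈ G, (∀ j, A j ≤ z j ∧ z j < A j + N j) ∧ (fun j => (z j : ZMod p)) ∈ Ω ∧
          ∀ j, ∀ q : ℕ, q.Prime → κ * ff p < |(q : ℝ) - z j| := by
  classical
  have : ∀ j, Nonempty (Fin (n j)) := fun j => ⟨⟨0, hn j⟩⟩
  obtain ⟨κ, hκ, p₁, h⟩ := gen (∀ j, Fin (n j)) (ε / 4) (by positivity) (by linarith)
  have e2 := (tendsto_natCast_atTop_atTop (R := ℝ)).eventually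
    ((tendsto_rpow_atTop (show (0 : ℝ) < ε / 2 by positivity)).eventually_ge_atTop 2)
  obtain ⟨p₂, hp₂⟩ := e2.exists_forall_of_atTop
  refine ⟨κ, hκ, max (max p₁ p₂) 2, ?_⟩
  intro p hp0 _ Ω hΩ A N hAN hN hW
  have hpp : p.Prime := Fact.out
  have hpe := hp₂ p ((le_max_right _ _).trans ((le_max_left _ _).trans hp0))
  have hp : (0 : ℝ) < p := by exact_mod_cast hpp.pos
  have hp1 : (1 : ℝ) ≤ p := by exact_mod_cast hpp.one_lt.le
  have hp2 : (2 : ℝ) ≤ p := by exact_mod_cast hpp.two_le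
  have hmono : ∀ x y : ℝ, x ≤ y → (p : ℝ) ^ x ≤ (p : ℝ) ^ y := fun x y h =>
    Real.rpow_le_rpow_of_exponent_le hp1 h
  have hcard : (Fintype.card (∀ j, Fin (n j)) : ℝ) = ∏ j, (n j : ℝ) := by
    rw [Fintype.card_pi]
    push_cast
    exact prod_congr rfl fun j _ => by rw [Fintype.card_fin]
  set E : ℕ := ∑ j ∈ D, (n j - 1) with hE
  have hEr : (E : ℝ) = ∑ j ∈ D, ((n j : ℝ) - 1) := by
    rw [hE]
    push_cast
    refine sum_congr rfl fun j _ => ?_
    rw [Nat.cast_sub (hn j)]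
    push_cast
    ring
  rw [← hEr] at hW
  obtain ⟨G, hG1, hG2⟩ := h p ((le_max_left _ _).trans ((le_max_left _ _).trans hp0)) Ω
    (((p - 1 : ℕ) : ℝ) * (p : ℝ) ^ E) (by
      have : 0 < p - 1 := by have := hpp.two_le; omega
      have : (0 : ℝ) < ((p - 1 : ℕ) : ℝ) := by exact_mod_cast this
      positivity) (by
      intro h0 hh0
      obtain ⟨H, hH1, hH2⟩ := many hΩ h0 hh0 hD
      exact ⟨H, hH1, by exact_mod_cast hH2⟩) A N hAN
    (fun j => (hmono _ _ (by linarith)).trans (hN j)) (by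
      rw [hcard]
      set R : ℝ := ∏ j, (n j : ℝ) with hR
      have e3 : ((p - 1 : ℕ) : ℝ) = p - 1 := by
        rw [Nat.cast_sub hpp.one_lt.le]
        push_cast
        ring
      have e4 : (p : ℝ) ^ ((E : ℝ) + 1) ≤ 2 * (((p - 1 : ℕ) : ℝ) * (p : ℝ) ^ E) := by
        rw [Real.rpow_add_one hp.ne', Real.rpow_natCast, e3]
        have : (0 : ℝ) < (p : ℝ) ^ E := by positivity
        nlinarith
      have e5 : (p : ℝ) ^ (3 * R + 2 * (ε / 4)) * 2 ≤ (p : ℝ) ^ (3 * R - E - 1 + ε) * (p : ℝ) ^ ((E : ℝ) + 1) := by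
        calc (p : ℝ) ^ (3 * R + 2 * (ε / 4)) * 2 ≤ (p : ℝ) ^ (3 * R + 2 * (ε / 4)) * (p : ℝ) ^ (ε / 2) :=
              mul_le_mul_of_nonneg_left hpe (by positivity)
          _ = _ := by
              rw [← Real.rpow_add hp, ← Real.rpow_add hp]
              congr 1
              ring
      have e6 : (p : ℝ) ^ (3 * R - E - 1 + ε) * (p : ℝ) ^ ((E : ℝ) + 1) ≤
          ((∏ j, (N j : ℝ)) ^ 2 * Ω.card) * (2 * (((p - 1 : ℕ) : ℝ) * (p : ℝ) ^ E)) :=
        mul_le_mul hW e4 (by positivity) (by positivity)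
      linarith)
  refine ⟨G, le_trans ?_ hG1, hG2⟩
  rw [hcard]
  exact mul_le_mul_of_nonneg_left (hmono _ _ (by linarith)) (by positivity)

end Pool.Agent.KS6_51.INV
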