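import Pool.Graph.R_pool_sql_team_seeded_2aa45f1a.Q20.RG.Prime

set_option autoImplicit false

/-! # Exponential sums over invariant sets of vectors over a prime field -/

namespace Pool.Agent.KS6_51.INV

open Finset Filter Matrix
open Pool.Agent.W147.PS (ff)
open Pool.Agent.Q20.RG

variable {p : ℕ} [Fact p.Prime] {J : Type} [Fintype J] [DecidableEq J]

/-- the exponential sum -/
noncomputable def S (Ω : Finset (J → ZMod p)) (h : J → ZMod p) : ℂ :=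
  ∑ v ∈ Ω, (ZMod.stdAddChar (h ⬝ᵥ v) : ℂ)

lemma norm_char (x : ZMod p) : ‖(ZMod.stdAddChar x : ℂ)‖ = 1 := by
  exact AddChar.norm_apply _ _

lemma orth (u : J → ZMod p) (hu : u ≠ 0) :
    ∑ h : J → ZMod p, (ZMod.stdAddChar (h ⬝ᵥ u) : ℂ) = 0 := by
  obtain ⟨i, hi⟩ := Function.ne_iff.1 hu
  have h1 : ∑ h : J → ZMod p, (ZMod.stdAddChar (h ⬝ᵥ u) : ℂ) =
      (ZMod.stdAddChar (u i) : ℂ) * ∑ h : J → ZMod p, (ZMod.stdAddChar (h ⬝ᵥ u) : ℂ) := by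
    rw [mul_sum, ← Equiv.sum_comp (Equiv.addLeft (Pi.single i (1 : ZMod p)))]
    refine sum_congr rfl fun h _ => ?_
    rw [Equiv.coe_addLeft, add_dotProduct, AddChar.map_add_eq_mul, single_dotProduct, one_mul]
  have h2 : (ZMod.stdAddChar (u i) : ℂ) ≠ 1 := by
    intro h3
    rw [← (ZMod.stdAddChar (N := p)).map_zero_eq_one, ZMod.injective_stdAddChar.eq_iff] at h3
    exact hi h3
  have h3 : (1 - (ZMod.stdAddChar (u i) : ℂ)) * ∑ h : J → ZMod p, (ZMod.stdAddChar (h ⬝ᵥ u) : ℂ) = 0 := by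
    rw [sub_mul, one_mul, ← h1, sub_self]
  rcases mul_eq_zero.1 h3 with h4 | h4
  · exact absurd (sub_eq_zero.1 h4).symm h2
  · exact h4

/-- Parseval -/
lemma parseval (Ω : Finset (J → ZMod p)) :
    ∑ h : J → ZMod p, ‖S Ω h‖ ^ 2 = (p : ℝ) ^ Fintype.card J * Ω.card := by
  have h1 : ∀ h : J → ZMod p, ((‖S Ω h‖ ^ 2 : ℝ) : ℂ) =
      ∑ v ∈ Ω, ∑ w ∈ Ω, (ZMod.stdAddChar (h ⬝ᵥ (v - w)) : ℂ) := by
    intro h
    push_cast
    rw [← Complex.mul_conj', S, map_sum, sum_mul_sum]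
    refine sum_congr rfl fun v _ => sum_congr rfl fun w _ => ?_
    rw [dotProduct_sub, sub_eq_add_neg, AddChar.map_add_eq_mul, AddChar.map_neg_eq_conj]
  have h2 : ((∑ h : J → ZMod p, ‖S Ω h‖ ^ 2 : ℝ) : ℂ) = (((p : ℝ) ^ Fintype.card J * Ω.card : ℝ) : ℂ) := by
    rw [Complex.ofReal_sum, sum_congr rfl (fun h _ => h1 h), sum_comm]
    have h3 : ∀ v ∈ Ω, ∑ h : J → ZMod p, ∑ w ∈ Ω, (ZMod.stdAddChar (h ⬝ᵥ (v - w)) : ℂ) =
        (p : ℂ) ^ Fintype.card J := by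
      intro v hv
      rw [sum_comm, ← add_sum_erase Ω _ hv]
      have h4 : ∑ h : J → ZMod p, (ZMod.stdAddChar (h ⬝ᵥ (v - v)) : ℂ) = (p : ℂ) ^ Fintype.card J := by
        simp [ZMod.card]
      rw [h4, sum_eq_zero, add_zero]
      intro w hw
      exact orth _ (sub_ne_zero.2 (ne_of_mem_erase hw).symm)
    rw [sum_congr rfl h3, sum_const, nsmul_eq_mul]
    push_cast
    ring
  exact_mod_cast h2

/-- many functionals with the same modulus of the exponential sum -/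
lemma bound (Ω : Finset (J → ZMod p)) (h : J → ZMod p) (H : Finset (J → ZMod p))
    (hH : ∀ g ∈ H, ‖S Ω g‖ = ‖S Ω h‖) (T : ℝ) (hT0 : 0 < T) (hT : T ≤ H.card) :
    ‖S Ω h‖ ≤ Real.sqrt ((p : ℝ) ^ Fintype.card J * Ω.card / T) := by
  apply Real.le_sqrt_of_sq_le
  rw [le_div_iff₀ hT0, ← parseval Ω]
  calc ‖S Ω h‖ ^ 2 * T ≤ ‖S Ω h‖ ^ 2 * H.card := mul_le_mul_of_nonneg_left hT (by positivity)
    _ = ∑ g ∈ H, ‖S Ω g‖ ^ 2 := by
        rw [sum_congr rfl (fun g hg => by rw [hH g hg]), sum_const, nsmul_eq_mul, mul_comm]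
    _ ≤ _ := sum_le_sum_of_subset_of_nonneg (subset_univ _) (fun _ _ _ => by positivity)

/-- invariance of the exponential sums -/
lemma inv_norm (Ω : Finset (J → ZMod p)) (φ : (J → ZMod p) → (J → ZMod p))
    (hφ : Set.MapsTo φ Ω Ω) (hi : Set.InjOn φ Ω) (g g' : J → ZMod p) (c : ZMod p)
    (hg : ∀ v, g ⬝ᵥ φ v = g' ⬝ᵥ v + c) : ‖S Ω g‖ = ‖S Ω g'‖ := by
  have h1 : Ω.image φ = Ω := by
    apply eq_of_subset_of_card_le
    · intro v hv
      obtain ⟨w, hw, rfl⟩ := mem_image.1 hv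
      exact hφ hw
    · rw [card_image_of_injOn hi]
  have h2 : S Ω g = (ZMod.stdAddChar c : ℂ) * S Ω g' := by
    unfold S
    conv_lhs => rw [← h1]
    rw [sum_image hi, mul_sum]
    refine sum_congr rfl fun v _ => ?_
    rw [hg, AddChar.map_add_eq_mul, mul_comm]
  rw [h2, norm_mul, norm_char, one_mul]

/-- **families with small exponential sums in terms of the modulus** -/
theorem gen (J : Type) [Fintype J] [DecidableEq J] [Nonempty J] (ε : ℝ) (hε : 0 < ε) (hε1 : ε ≤ 1) :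
    ∃ κ : ℝ, 0 < κ ∧ ∃ p₀ : ℕ, ∀ p : ℕ, p₀ ≤ p → ∀ [Fact p.Prime],
    ∀ (Ω : Finset (J → ZMod p)) (T : ℝ), 0 < T →
    (∀ h : J → ZMod p, h ≠ 0 → ∃ H : Finset (J → ZMod p), (∀ g ∈ H, ‖S Ω g‖ = ‖S Ω h‖) ∧ T ≤ H.card) →
    ∀ A N : J → ℕ, (∀ j, A j + N j ≤ p) → (∀ j, (p : ℝ) ^ ε ≤ N j) →
      (p : ℝ) ^ (3 * (Fintype.card J : ℝ) + 2 * ε) ≤ (∏ j, (N j : ℝ)) ^ 2 * Ω.card * T →
      ∃ G : Finset (J → ℕ),
        (∏ j, (N j : ℝ)) * Ω.card * (p : ℝ) ^ (-(Fintype.card J : ℝ) - ε) ≤ G.card ∧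
        ∀ z ∈ G, (∀ j, A j ≤ z j ∧ z j < A j + N j) ∧ (fun j => (z j : ZMod p)) ∈ Ω ∧
          ∀ j, ∀ q : ℕ, q.Prime → κ * ff p < |(q : ℝ) - z j| := by
  classical
  obtain ⟨κ, hκ, p₀, h⟩ := primeSet J ε hε hε1
  refine ⟨κ, hκ, max p₀ 2, ?_⟩
  intro p hp0 _ Ω T hT hH A N hAN hN hW
  have hpp : p.Prime := Fact.out
  have hp : (0 : ℝ) < p := by exact_mod_cast hpp.pos
  set r : ℝ := (Fintype.card J : ℝ) with hr
  have hpr : (p : ℝ) ^ Fintype.card J = (p : ℝ) ^ r := by rw [hr, Real.rpow_natCast]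
  have hΩ0 : (0 : ℝ) ≤ Ω.card := Nat.cast_nonneg _
  have hPN : 0 ≤ ∏ j, (N j : ℝ) := by positivity
  obtain ⟨G, hG1, hG2⟩ := h p ((le_max_left _ _).trans hp0) Ω
    (Real.sqrt ((p : ℝ) ^ Fintype.card J * Ω.card / T)) (Real.sqrt_nonneg _) (by
      intro h0 hh0
      obtain ⟨H, hH1, hH2⟩ := hH h0 hh0
      exact bound Ω h0 H hH1 T hT hH2) A N hAN hN (by
      apply le_of_sq_le_sq _ (by positivity)
      rw [mul_pow, mul_pow, Real.sq_sqrt (by positivity), hpr, div_mul_eq_mul_div, div_mul_eq_mul_div,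
        div_le_iff₀ hT]
      have e1 : (p : ℝ) ^ r * Ω.card * ((p : ℝ) ^ ε) ^ 2 * ((p : ℝ) ^ r) ^ 2 =
          (p : ℝ) ^ (3 * r + 2 * ε) * Ω.card := by
        have : (p : ℝ) ^ (3 * r + 2 * ε) = (p : ℝ) ^ r * ((p : ℝ) ^ ε) ^ 2 * ((p : ℝ) ^ r) ^ 2 := by
          rw [← Real.rpow_natCast ((p : ℝ) ^ ε), ← Real.rpow_natCast ((p : ℝ) ^ r), ← Real.rpow_mul hp.le,
            ← Real.rpow_mul hp.le, ← Real.rpow_add hp, ← Real.rpow_add hp]
          congr 1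
          push_cast
          ring
        rw [this]
        ring
      rw [e1]
      calc (p : ℝ) ^ (3 * r + 2 * ε) * Ω.card ≤ (∏ j, (N j : ℝ)) ^ 2 * Ω.card * T * Ω.card :=
            mul_le_mul_of_nonneg_right hW hΩ0
        _ = _ := by ring)
  refine ⟨G, le_trans (le_of_eq ?_) hG1, hG2⟩
  rw [hpr, div_mul_eq_mul_div, eq_div_iff (by positivity), sub_eq_add_neg, Real.rpow_add hp, Real.rpow_neg hp.le]
  field_simp

end Pool.Agent.KS6_51.INV
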