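import Pool.Agent.KS6_51.INV.Core

set_option autoImplicit false

/-! # Coordinates of the elements of unions of cosets of a multiplicative subgroup of a finite field -/

namespace Pool.Agent.KS6_51.INV

open Finset Filter Matrix Module
open Pool.Agent.W147.PS (ff)
open Pool.Agent.Q20.RG

section

variable {p r : ℕ} [Fact p.Prime] {F : Type} [Field F] [Algebra (ZMod p) F] (B : Basis (Fin r) (ZMod p) F)

lemma expand (g : Fin r → ZMod p) (c y : F) :
    g ⬝ᵥ B.equivFun (c * y) = (fun j => g ⬝ᵥ B.equivFun (c * B j)) ⬝ᵥ B.equivFun y := by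
  have h1 : c * y = ∑ j, B.equivFun y j • (c * B j) := by
    conv_lhs => rw [← B.sum_equivFun y]
    rw [mul_sum]
    exact sum_congr rfl fun j _ => mul_smul_comm _ _ _
  rw [h1, map_sum, dotProduct_sum]
  rw [dotProduct]
  refine sum_congr rfl fun j _ => ?_
  rw [map_smul, dotProduct_smul, smul_eq_mul, mul_comm]

lemma func_inj (g : Fin r → ZMod p) (hg : g ≠ 0) (c c' : F)
    (h : (fun j => g ⬝ᵥ B.equivFun (c * B j)) = (fun j => g ⬝ᵥ B.equivFun (c' * B j))) : c = c' := by
  by_contra hcc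
  apply hg
  have h1 : ∀ y : F, g ⬝ᵥ B.equivFun ((c - c') * y) = 0 := by
    intro y
    rw [sub_mul, map_sub, dotProduct_sub, expand B g c y, expand B g c' y, h, sub_self]
  funext j
  have h2 := h1 ((c - c')⁻¹ * B j)
  rw [mul_inv_cancel_left₀ (sub_ne_zero.2 hcc)] at h2
  rw [Pi.zero_apply, ← h2]
  rw [Basis.equivFun_apply, Basis.repr_self, dotProduct, sum_eq_single j]
  · simp
  · intro i _ hij
    simp [Finsupp.single_apply, Ne.symm hij]
  · simp

end

/-- **unions of cosets in finite fields** -/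
theorem field (r : ℕ) (hr : 1 ≤ r) (ε : ℝ) (hε : 0 < ε) (hε1 : ε ≤ 1) :
    ∃ κ : ℝ, 0 < κ ∧ ∃ p₀ : ℕ, ∀ p : ℕ, p₀ ≤ p → ∀ [Fact p.Prime],
    ∀ (F : Type) [Field F] [Algebra (ZMod p) F] (B : Basis (Fin r) (ZMod p) F) (U : Subgroup Fˣ) (Ω : Finset F),
    (∀ u ∈ U, ∀ y ∈ Ω, (u : F) * y ∈ Ω) →
    ∀ A N : Fin r → ℕ, (∀ j, A j + N j ≤ p) → (∀ j, (p : ℝ) ^ ε ≤ N j) →
      (p : ℝ) ^ (3 * (r : ℝ) + ε) ≤ (∏ j, (N j : ℝ)) ^ 2 * Ω.card * Nat.card U →
      ∃ G : Finset (Fin r → ℕ),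
        (∏ j, (N j : ℝ)) * Ω.card * (p : ℝ) ^ (-(r : ℝ) - ε) ≤ G.card ∧
        ∀ z ∈ G, (∀ j, A j ≤ z j ∧ z j < A j + N j) ∧ (∑ j, (z j : ZMod p) • B j) ∈ Ω ∧
          ∀ j, ∀ q : ℕ, q.Prime → κ * ff p < |(q : ℝ) - z j| := by
  classical
  have : Nonempty (Fin r) := ⟨⟨0, by omega⟩⟩
  obtain ⟨κ, hκ, p₀, h⟩ := gen (Fin r) (ε / 2) (by positivity) (by linarith)
  refine ⟨κ, hκ, p₀, ?_⟩
  intro p hp0 _ F _ _ B U Ω hU A N hAN hN hW
  have hpp : p.Prime := Fact.out
  have hp : (0 : ℝ) < p := by exact_mod_cast hpp.pos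
  have hp1 : (1 : ℝ) ≤ p := by exact_mod_cast hpp.one_lt.le
  have hmono : ∀ x y : ℝ, x ≤ y → (p : ℝ) ^ x ≤ (p : ℝ) ^ y := fun x y h =>
    Real.rpow_le_rpow_of_exponent_le hp1 h
  have hfin : Finite F := by
    have : Finite (Fin r → ZMod p) := inferInstance
    exact Finite.of_equiv _ B.equivFun.symm.toEquiv
  have hfu : Finite Fˣ := inferInstance
  letI : Fintype U := Fintype.ofFinite U
  set Ω' : Finset (Fin r → ZMod p) := Ω.image (fun y => B.equivFun y) with hΩ'
  have hcard : Ω'.card = Ω.card := card_image_of_injective _ B.equivFun.injective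
  have hT : (0 : ℝ) < Nat.card U := by exact_mod_cast Nat.card_pos
  obtain ⟨G, hG1, hG2⟩ := h p hp0 Ω' (Nat.card U) hT (by
      intro g hg
      refine ⟨univ.image (fun u : U => fun j => g ⬝ᵥ B.equivFun (((u : Fˣ) : F) * B j)), ?_, ?_⟩
      · intro g' hg'
        obtain ⟨u, -, rfl⟩ := mem_image.1 hg'
        symm
        refine inv_norm Ω' (fun v => B.equivFun (((u : Fˣ) : F) * B.equivFun.symm v)) ?_ ?_ g _ 0 fun v => ?_
        · intro v hv
          rw [mem_coe, hΩ', mem_image] at hv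
          obtain ⟨y, hy, rfl⟩ := hv
          simp only [LinearEquiv.symm_apply_apply]
          rw [mem_coe, hΩ']
          exact mem_image_of_mem _ (hU u u.2 y hy)
        · intro v _ w _ hvw
          have h1 := B.equivFun.injective hvw
          have h2 := mul_left_cancel₀ (Units.ne_zero (u : Fˣ)) h1
          exact B.equivFun.symm.injective h2
        · rw [add_zero, expand B g, LinearEquiv.apply_symm_apply]
      · rw [card_image_of_injective, card_univ, Nat.card_eq_fintype_card]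
        intro u u' huu
        apply Subtype.ext
        apply Units.ext
        exact func_inj B g hg _ _ huu) A N hAN
    (fun j => (hmono _ _ (by linarith)).trans (hN j)) (by
      rw [Fintype.card_fin, hcard]
      refine le_trans (le_of_eq ?_) hW
      congr 1
      ring)
  refine ⟨G, le_trans ?_ hG1, ?_⟩
  · rw [Fintype.card_fin, hcard]
    exact mul_le_mul_of_nonneg_left (hmono _ _ (by linarith)) (by positivity)
  · intro z hz
    obtain ⟨g1, g2, g3⟩ := hG2 z hz
    refine ⟨g1, ?_, g3⟩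
    rw [hΩ', mem_image] at g2
    obtain ⟨y, hy, hyz⟩ := g2
    have h1 : ∑ j, (z j : ZMod p) • B j = y := by
      conv_rhs => rw [← B.sum_equivFun y]
      refine sum_congr rfl fun j _ => ?_
      rw [hyz]
    rw [h1]
    exact hy

end Pool.Agent.KS6_51.INV
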