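import Pool.Agent.KS6_51.INV.Core
import Mathlib.LinearAlgebra.Matrix.Charpoly.Coeff

set_option autoImplicit false

/-! # Affine groups and matrices with irreducible characteristic polynomial -/

namespace Pool.Agent.KS6_51.INV

open Finset Filter Matrix Polynomial
open Pool.Agent.W147.PS (ff)
open Pool.Agent.Q20.RG

/-- **sets invariant under affine maps** -/
theorem general (r : ℕ) (hr : 1 ≤ r) (ε : ℝ) (hε : 0 < ε) (hε1 : ε ≤ 1) :
    ∃ κ : ℝ, 0 < κ ∧ ∃ p₀ : ℕ, ∀ p : ℕ, p₀ ≤ p → ∀ [Fact p.Prime],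
    ∀ (Γ : Set (Matrix (Fin r) (Fin r) (ZMod p) × (Fin r → ZMod p))) (T : ℝ),
    (∀ H : Finset (Fin r → ZMod p), (∃ h ∈ H, h ≠ 0) → (∀ γ ∈ Γ, ∀ h ∈ H, h ᵥ* γ.1 ∈ H) → T ≤ H.card) →
    ∀ Ω : Finset (Fin r → ZMod p), (∀ γ ∈ Γ, Set.BijOn (fun v => γ.1 *ᵥ v + γ.2) Ω Ω) →
    ∀ A N : Fin r → ℕ, (∀ j, A j + N j ≤ p) → (∀ j, (p : ℝ) ^ ε ≤ N j) →
      (p : ℝ) ^ (3 * (r : ℝ) + ε) ≤ (∏ j, (N j : ℝ)) ^ 2 * Ω.card * T →
      ∃ G : Finset (Fin r → ℕ),
        (∏ j, (N j : ℝ)) * Ω.card * (p : ℝ) ^ (-(r : ℝ) - ε) ≤ G.card ∧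
        ∀ z ∈ G, (∀ j, A j ≤ z j ∧ z j < A j + N j) ∧ (fun j => (z j : ZMod p)) ∈ Ω ∧
          ∀ j, ∀ q : ℕ, q.Prime → κ * ff p < |(q : ℝ) - z j| := by
  classical
  have : Nonempty (Fin r) := ⟨⟨0, by omega⟩⟩
  obtain ⟨κ, hκ, p₀, h⟩ := gen (Fin r) (ε / 2) (by positivity) (by linarith)
  refine ⟨κ, hκ, p₀, ?_⟩
  intro p hp0 _ Γ T hT Ω hΩ A N hAN hN hW
  have hpp : p.Prime := Fact.out
  have hp : (0 : ℝ) < p := by exact_mod_cast hpp.pos
  have hp1 : (1 : ℝ) ≤ p := by exact_mod_cast hpp.one_lt.le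
  have hmono : ∀ x y : ℝ, x ≤ y → (p : ℝ) ^ x ≤ (p : ℝ) ^ y := fun x y h =>
    Real.rpow_le_rpow_of_exponent_le hp1 h
  have hT0 : 0 < T := by
    by_contra hcon
    have h1 : (∏ j, (N j : ℝ)) ^ 2 * Ω.card * T ≤ 0 :=
      mul_nonpos_of_nonneg_of_nonpos (by positivity) (not_lt.1 hcon)
    have h2 : (0 : ℝ) < (p : ℝ) ^ (3 * (r : ℝ) + ε) := by positivity
    linarith
  obtain ⟨G, hG1, hG2⟩ := h p hp0 Ω T hT0 (by
      intro h0 hh0
      refine ⟨univ.filter (fun g => ‖S Ω g‖ = ‖S Ω h0‖), fun g hg => (mem_filter.1 hg).2, ?_⟩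
      apply hT
      · exact ⟨h0, by simp, hh0⟩
      · intro γ hγ g hg
        rw [mem_filter] at hg ⊢
        refine ⟨mem_univ _, ?_⟩
        rw [← hg.2]
        symm
        refine inv_norm Ω (fun v => γ.1 *ᵥ v + γ.2) (hΩ γ hγ).mapsTo (hΩ γ hγ).injOn g (g ᵥ* γ.1)
          (g ⬝ᵥ γ.2) fun v => ?_
        rw [dotProduct_add, dotProduct_mulVec]) A N hAN
    (fun j => (hmono _ _ (by linarith)).trans (hN j)) (by
      rw [Fintype.card_fin]
      refine le_trans (le_of_eq ?_) hW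
      congr 1
      ring)
  refine ⟨G, le_trans ?_ hG1, hG2⟩
  rw [Fintype.card_fin]
  exact mul_le_mul_of_nonneg_left (hmono _ _ (by linarith)) (by positivity)

section

variable {p r : ℕ} [Fact p.Prime] {M : Matrix (Fin r) (Fin r) (ZMod p)}

lemma irr_row (hM : Irreducible M.charpoly) (q : (ZMod p)[X]) (h : Fin r → ZMod p) (hh : h ≠ 0)
    (hq : h ᵥ* aeval M q = 0) : aeval M q = 0 := by
  by_cases hd : M.charpoly ∣ q
  · obtain ⟨c, rfl⟩ := hd
    rw [map_mul, aeval_self_charpoly, zero_mul]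
  · obtain ⟨u, v, huv⟩ := (hM.coprime_iff_not_dvd).2 hd
    exfalso
    apply hh
    have h1 := congrArg (aeval M) huv
    rw [map_add, map_mul, map_mul, aeval_self_charpoly, mul_zero, zero_add, map_one] at h1
    have h2 : aeval M q * aeval M v = 1 := by rw [← h1, ← map_mul, ← map_mul, mul_comm]
    rw [← vecMul_one h, ← h2, ← vecMul_vecMul, hq, zero_vecMul]

lemma irr_col (hM : Irreducible M.charpoly) (q : (ZMod p)[X]) (h : Fin r → ZMod p) (hh : h ≠ 0)
    (hq : aeval M q *ᵥ h = 0) : aeval M q = 0 := by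
  by_cases hd : M.charpoly ∣ q
  · obtain ⟨c, rfl⟩ := hd
    rw [map_mul, aeval_self_charpoly, zero_mul]
  · obtain ⟨u, v, huv⟩ := (hM.coprime_iff_not_dvd).2 hd
    exfalso
    apply hh
    have h1 := congrArg (aeval M) huv
    rw [map_add, map_mul, map_mul, aeval_self_charpoly, mul_zero, zero_add, map_one] at h1
    rw [← one_mulVec h, ← h1, ← mulVec_mulVec, hq, mulVec_zero]

lemma pow_eq {i j : ℕ} (ht : 0 < orderOf M) (hi : i < orderOf M) (hj : j < orderOf M) (h : M ^ i = M ^ j) :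
    i = j := by
  wlog hij : i ≤ j generalizing i j
  · exact (this hj hi h.symm (by omega)).symm
  have h1 : M ^ (j - i) = 1 := by
    calc M ^ (j - i) = M ^ (j - i) * M ^ orderOf M := by rw [pow_orderOf_eq_one, mul_one]
      _ = M ^ (j + (orderOf M - i)) := by rw [← pow_add]; congr 1; omega
      _ = M ^ i * M ^ (orderOf M - i) := by rw [pow_add, ← h]
      _ = M ^ orderOf M := by rw [← pow_add]; congr 1; omega
      _ = 1 := pow_orderOf_eq_one M
  have h2 := orderOf_dvd_of_pow_eq_one h1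
  rcases Nat.eq_zero_or_pos (j - i) with h3 | h3
  · omega
  · have := Nat.le_of_dvd h3 h2
    omega

variable {b : Fin r → ZMod p} {x : ℕ → Fin r → ZMod p}

lemma diff (hx : ∀ k, x (k + 1) = M *ᵥ x k + b) (k : ℕ) : x (k + 1) - x k = (M ^ k) *ᵥ (x 1 - x 0) := by
  induction k with
  | zero => simp
  | succ k ih =>
    have h1 : x (k + 1 + 1) - x (k + 1) = M *ᵥ (x (k + 1) - x k) := by
      rw [hx (k + 1)]
      nth_rewrite 2 [hx k]
      rw [mulVec_sub]
      abel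
    rw [h1, ih, mulVec_mulVec, pow_succ']

lemma inj_x (hM : Irreducible M.charpoly) (hx : ∀ k, x (k + 1) = M *ᵥ x k + b) (h01 : x 1 ≠ x 0)
    (ht : 0 < orderOf M) : Set.InjOn x (range (orderOf M) : Finset ℕ) := by
  intro i hi j hj hij
  rw [mem_coe, mem_range] at hi hj
  have h1 : x (i + 1) - x i = x (j + 1) - x j := by rw [hx i, hx j, hij]
  rw [diff hx i, diff hx j] at h1
  have h2 : aeval M ((X : (ZMod p)[X]) ^ i - X ^ j) = 0 := by
    apply irr_col hM _ (x 1 - x 0) (sub_ne_zero.2 h01)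
    rw [map_sub, map_pow, map_pow, aeval_X, sub_mulVec, h1, sub_self]
  rw [map_sub, map_pow, map_pow, aeval_X, sub_eq_zero] at h2
  exact pow_eq ht hi hj h2

lemma tele (hx : ∀ k, x (k + 1) = M *ᵥ x k + b) (k : ℕ) :
    (M - 1) *ᵥ (x k - x 0) = (M ^ k - 1) *ᵥ (x 1 - x 0) := by
  induction k with
  | zero => simp
  | succ k ih =>
    have h1 : x (k + 1) - x 0 = M *ᵥ (x k - x 0) + (x 1 - x 0) := by
      have h2 := hx k
      have h3 := hx 0
      rw [zero_add] at h3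
      rw [h2, h3, mulVec_sub]
      abel
    have h4 : (M - 1) * M = M * (M - 1) := by rw [sub_mul, mul_sub, one_mul, mul_one]
    rw [h1, mulVec_add, mulVec_mulVec, h4, ← mulVec_mulVec, ih, mulVec_mulVec, ← add_mulVec]
    congr 1
    rw [mul_sub, mul_one, ← pow_succ']
    abel

lemma period (hM : Irreducible M.charpoly) (hM1 : M ≠ 1) (hx : ∀ k, x (k + 1) = M *ᵥ x k + b) :
    x (orderOf M) = x 0 := by
  by_contra hcon
  have h1 := tele hx (orderOf M)
  rw [pow_orderOf_eq_one, sub_self, zero_mulVec] at h1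
  have h2 : aeval M ((X : (ZMod p)[X]) - 1) = 0 := by
    apply irr_col hM _ (x (orderOf M) - x 0) (sub_ne_zero.2 hcon)
    rw [map_sub, map_one, aeval_X, h1]
  rw [map_sub, map_one, aeval_X, sub_eq_zero] at h2
  exact hM1 h2

end

/-- **recurrences** -/
theorem recur (r : ℕ) (hr : 1 ≤ r) (ε : ℝ) (hε : 0 < ε) (hε1 : ε ≤ 1) :
    ∃ κ : ℝ, 0 < κ ∧ ∃ p₀ : ℕ, ∀ p : ℕ, p₀ ≤ p → ∀ [Fact p.Prime],
    ∀ M : Matrix (Fin r) (Fin r) (ZMod p), Irreducible M.charpoly → M ≠ 1 →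
    ∀ (b : Fin r → ZMod p) (x : ℕ → Fin r → ZMod p), (∀ k, x (k + 1) = M *ᵥ x k + b) → x 1 ≠ x 0 →
    ∀ A N : Fin r → ℕ, (∀ j, A j + N j ≤ p) → (∀ j, (p : ℝ) ^ ε ≤ N j) →
      (p : ℝ) ^ (3 * (r : ℝ) / 2 + ε) ≤ (∏ j, (N j : ℝ)) * orderOf M →
      ∃ G : Finset ℕ,
        (∏ j, (N j : ℝ)) * orderOf M * (p : ℝ) ^ (-(r : ℝ) - ε) ≤ G.card ∧
        ∀ k ∈ G, k < orderOf M ∧ ∀ j, (A j ≤ (x k j).val ∧ (x k j).val < A j + N j) ∧
          ∀ q : ℕ, q.Prime → κ * ff p < |(q : ℝ) - (x k j).val| := by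
  classical
  have : Nonempty (Fin r) := ⟨⟨0, by omega⟩⟩
  obtain ⟨κ, hκ, p₀, h⟩ := gen (Fin r) ε hε hε1
  refine ⟨κ, hκ, p₀, ?_⟩
  intro p hp0 _ M hM hM1 b x hx h01 A N hAN hN hW
  have hpp : p.Prime := Fact.out
  have hp : (0 : ℝ) < p := by exact_mod_cast hpp.pos
  have ht : 0 < orderOf M := by
    rcases Nat.eq_zero_or_pos (orderOf M) with h1 | h1
    · rw [h1, Nat.cast_zero, mul_zero] at hW
      have h2 : (0 : ℝ) < (p : ℝ) ^ (3 * (r : ℝ) / 2 + ε) := by positivity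
      linarith
    · exact h1
  set t : ℕ := orderOf M with htd
  set Ω : Finset (Fin r → ZMod p) := (range t).image x with hΩ
  have hcard : Ω.card = t := by
    rw [hΩ, card_image_of_injOn (inj_x hM hx h01 ht), card_range]
  have hmaps : Set.MapsTo (fun v => M *ᵥ v + b) Ω Ω := by
    intro v hv
    rw [mem_coe, hΩ, mem_image] at hv
    obtain ⟨k, hk, rfl⟩ := hv
    rw [mem_range] at hk
    simp only
    rw [← hx k, mem_coe, hΩ, mem_image]
    rcases Nat.lt_or_ge (k + 1) t with h1 | h1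
    · exact ⟨k + 1, mem_range.2 h1, rfl⟩
    · have h2 : k + 1 = t := by omega
      exact ⟨0, mem_range.2 ht, by rw [h2, htd, period hM hM1 hx]⟩
  have hinj : Function.Injective (fun v : Fin r → ZMod p => M *ᵥ v + b) := by
    intro v w hvw
    have h1 : M *ᵥ v = M *ᵥ w := add_right_cancel hvw
    have h2 : M ^ (t - 1) * M = 1 := by
      rw [← pow_succ, Nat.sub_add_cancel ht, htd, pow_orderOf_eq_one]
    rw [← one_mulVec v, ← one_mulVec w, ← h2, ← mulVec_mulVec, ← mulVec_mulVec, h1]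
  obtain ⟨G, hG1, hG2⟩ := h p hp0 Ω t (by exact_mod_cast ht) (by
      intro h0 hh0
      refine ⟨(range t).image (fun k => h0 ᵥ* M ^ k), ?_, ?_⟩
      · intro g hg
        obtain ⟨k, -, rfl⟩ := mem_image.1 hg
        induction k with
        | zero => rw [pow_zero, vecMul_one]
        | succ k ih =>
          rw [← ih (by
            by_cases hk : k < t
            · exact mem_image_of_mem _ (mem_range.2 hk)
            · have h3 : M ^ k = M ^ (k % t) := by rw [htd, pow_mod_orderOf]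
              rw [h3]
              exact mem_image_of_mem _ (mem_range.2 (Nat.mod_lt _ ht)))]
          symm
          refine inv_norm Ω (fun v => M *ᵥ v + b) hmaps hinj.injOn (h0 ᵥ* M ^ k) (h0 ᵥ* M ^ (k + 1))
            ((h0 ᵥ* M ^ k) ⬝ᵥ b) fun v => ?_
          rw [dotProduct_add, dotProduct_mulVec, vecMul_vecMul, ← pow_succ]
      · rw [card_image_of_injOn, card_range]
        intro i hi j hj hij
        rw [mem_coe, mem_range] at hi hj
        replace hij : h0 ᵥ* M ^ i = h0 ᵥ* M ^ j := hij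
        have h2 : aeval M ((X : (ZMod p)[X]) ^ i - X ^ j) = 0 := by
          apply irr_row hM _ h0 hh0
          rw [map_sub, map_pow, map_pow, aeval_X, vecMul_sub, hij, sub_self]
        rw [map_sub, map_pow, map_pow, aeval_X, sub_eq_zero] at h2
        exact pow_eq ht hi hj h2) A N hAN hN (by
      rw [Fintype.card_fin, hcard]
      have h1 : (p : ℝ) ^ (3 * (r : ℝ) + 2 * ε) = ((p : ℝ) ^ (3 * (r : ℝ) / 2 + ε)) ^ 2 := by
        rw [← Real.rpow_natCast, ← Real.rpow_mul hp.le]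
        congr 1
        push_cast
        ring
      rw [h1]
      calc ((p : ℝ) ^ (3 * (r : ℝ) / 2 + ε)) ^ 2 ≤ ((∏ j, (N j : ℝ)) * t) ^ 2 :=
            pow_le_pow_left₀ (by positivity) hW 2
        _ = _ := by ring)
  rw [Fintype.card_fin, hcard] at hG1
  refine ⟨(range t).filter (fun k => (fun j => (x k j).val) ∈ G), hG1.trans ?_, ?_⟩
  · have hsub : G ⊆ ((range t).filter (fun k => (fun j => (x k j).val) ∈ G)).image
        (fun k => fun j => (x k j).val) := by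
      intro z hz
      obtain ⟨g1, g2, -⟩ := hG2 z hz
      rw [hΩ, mem_image] at g2
      obtain ⟨k, hk, hkz⟩ := g2
      have h1 : (fun j => (x k j).val) = z := by
        funext j
        have h3 : x k j = (z j : ZMod p) := congrFun hkz j
        rw [h3, ZMod.val_natCast, Nat.mod_eq_of_lt]
        have := (g1 j).2
        have := hAN j
        omega
      rw [mem_image]
      exact ⟨k, mem_filter.2 ⟨hk, by rw [h1]; exact hz⟩, h1⟩
    exact_mod_cast (card_le_card hsub).trans card_image_le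
  · intro k hk
    rw [mem_filter, mem_range] at hk
    obtain ⟨g1, -, g3⟩ := hG2 _ hk.2
    exact ⟨hk.1, fun j => ⟨g1 j, g3 j⟩⟩

end Pool.Agent.KS6_51.INV
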